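import Pool.Agent.H29.LG.Targets

/-!
# Choice of a sublattice for all primes at once: board `lgx_modules`, row `CHOA`
-/

set_option autoImplicit false

namespace Pool.Agent.H1.LG

open NumberField Height Finset Polynomial Pool.Agent.H24.RD Pool.Agent.H23.RDD Pool.Agent.H29.RQ
  Pool.Agent.H29.SX Pool.Agent.H29.LG

theorem ev_onFinset {K A R : Type} [Field K] [CommRing R] [Algebra K R] (y : A → R)
    (S : Finset A) (F : A → K) (h : ∀ a, F a ≠ 0 → a ∈ S) :
    ev K y (Finsupp.onFinset S F h) = ∑ a ∈ S, algebraMap K R (F a) * y a := by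
  unfold ev
  exact Finsupp.onFinset_sum h fun a => by simp

theorem ev_support {K A R : Type} [Field K] [CommRing R] [Algebra K R] (y : A → R)
    (f : A →₀ K) : ev K y f = ∑ a ∈ f.support, algebraMap K R (f a) * y a := rfl

open Classical in
theorem pf_CHOA : T_CHOA := by
  intro K Ω _ _ _ m y N σ hy hN f hf hfs hfe
  -- translation
  set Pg : ((Fin m → ℤ) →₀ K) → Prop := fun g => g 0 ≠ 0 ∧ Spt N (2 * σ) g ∧ ev K y g = 0 with hPg
  have h1 : ∃ g, Pg g := by
    obtain ⟨a0, ha0⟩ := Finsupp.support_nonempty_iff.2 hf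
    have ha0' : f a0 ≠ 0 := Finsupp.mem_support_iff.1 ha0
    refine ⟨Finsupp.equivMapDomain (Equiv.subRight a0) f, ?_, ?_, ?_⟩
    · rw [Finsupp.equivMapDomain_apply]
      simpa using ha0'
    · intro a ha
      rw [Finsupp.mem_support_iff, Finsupp.equivMapDomain_apply] at ha
      have e1 : (Equiv.subRight a0).symm a = a + a0 := rfl
      rw [e1] at ha
      have h2 : N (a + a0) ≤ σ := hfs _ (Finsupp.mem_support_iff.2 ha)
      have h3 : N a0 ≤ σ := hfs _ ha0
      have h4 := hN.add (a + a0) (-a0)
      rw [hN.neg, add_neg_cancel_right] at h4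
      linarith
    · unfold ev
      rw [Finsupp.sum_equivMapDomain]
      have h2 : ∀ a : Fin m → ℤ, y (Equiv.subRight a0 a) = y a * y (-a0) := by
        intro a
        rw [← hy.add]
        rfl
      simp only [h2]
      have h3 : (f.sum fun a c => algebraMap K Ω c * (y a * y (-a0))) = ev K y f * y (-a0) := by
        unfold ev Finsupp.sum
        rw [Finset.sum_mul]
        exact Finset.sum_congr rfl fun a _ => by ring
      rw [h3, hfe, zero_mul]
  -- minimal support
  obtain ⟨g, hg, hmin⟩ : ∃ g, Pg g ∧ ∀ g', Pg g' → g.support.card ≤ g'.support.card := by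
    have h2 : ∃ k : ℕ, ∃ g, Pg g ∧ g.support.card = k := by
      obtain ⟨g, hg⟩ := h1
      exact ⟨_, g, hg, rfl⟩
    obtain ⟨g, hg, hk⟩ := Nat.find_spec h2
    refine ⟨g, hg, fun g' hg' => ?_⟩
    rw [hk]
    exact Nat.find_min' h2 ⟨g', hg', rfl⟩
  obtain ⟨hg0, hgs, hge⟩ := hg
  -- the sublattice
  set Λ : AddSubgroup (Fin m → ℤ) := AddSubgroup.closure (g.support : Set (Fin m → ℤ)) with hΛ
  set S' : Submodule ℤ (Fin m → ℤ) := AddSubgroup.toIntSubmodule Λ with hS'
  obtain ⟨m', ⟨b⟩⟩ := Submodule.nonempty_basis_of_pid (Pi.basisFun ℤ (Fin m)) S'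
  have hmm : m' ≤ m := by
    have h2 := Submodule.finrank_le S'
    rw [Module.finrank_eq_card_basis b, Module.finrank_eq_card_basis (Pi.basisFun ℤ (Fin m))] at h2
    simpa using h2
  set L0 : (Fin m' → ℤ) →ₗ[ℤ] (Fin m → ℤ) :=
    (Submodule.subtype S').comp (b.equivFun.symm : (Fin m' → ℤ) →ₗ[ℤ] S') with hL0
  set L : (Fin m' → ℤ) →+ (Fin m → ℤ) := L0.toAddMonoidHom with hL
  have hLinj : Function.Injective L := by
    intro a a' h
    have h2 : (b.equivFun.symm a : Fin m → ℤ) = (b.equivFun.symm a' : Fin m → ℤ) := h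
    exact b.equivFun.symm.injective (Subtype.ext h2)
  have hLran : ∀ v ∈ Λ, ∃ a, L a = v := by
    intro v hv
    have hv' : v ∈ S' := hv
    refine ⟨b.equivFun ⟨v, hv'⟩, ?_⟩
    show ((b.equivFun.symm (b.equivFun ⟨v, hv'⟩) : S') : Fin m → ℤ) = v
    rw [LinearEquiv.symm_apply_apply]
  have hLin : ∀ a, L a ∈ Λ := by
    intro a
    exact (b.equivFun.symm a).2
  have hsupΛ : ∀ a ∈ g.support, a ∈ Λ := fun a ha => AddSubgroup.subset_closure ha
  -- pull back
  set g' : (Fin m' → ℤ) →₀ K := Finsupp.comapDomain L g hLinj.injOn with hg'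
  have hg'a : ∀ a, g' a = g (L a) := fun a => Finsupp.comapDomain_apply _ _ _ _
  set S : Finset (Fin m' → ℤ) := g'.support with hS
  have hmemS : ∀ a, a ∈ S ↔ L a ∈ g.support := by
    intro a
    rw [hS, Finsupp.mem_support_iff, hg'a, Finsupp.mem_support_iff]
  have hScard : S.card ≤ g.support.card := by
    refine Finset.card_le_card_of_injOn L (fun a ha => ?_) hLinj.injOn
    exact (hmemS a).1 ha
  have hsumg : ∑ a ∈ S, algebraMap K Ω (g' a) * y (L a) = 0 := by
    rw [← hge, ev_support]
    refine Finset.sum_bij (fun a _ => L a) (fun a ha => (hmemS a).1 ha)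
      (fun a _ a' _ h => hLinj h) ?_ ?_
    · intro v hv
      obtain ⟨a, rfl⟩ := hLran v (hsupΛ v hv)
      exact ⟨a, (hmemS a).2 hv, rfl⟩
    · intro a _
      rw [hg'a]
  -- relations upstairs have large support
  have hmin' : ∀ h : (Fin m' → ℤ) →₀ K, h 0 ≠ 0 → Spt (fun a => N (L a)) (2 * σ) h →
      ev K (fun a => y (L a)) h = 0 → S.card ≤ h.support.card := by
    intro h hh0 hhs hhe
    have h2 : Pg (Finsupp.embDomain ⟨L, hLinj⟩ h) := by
      refine ⟨?_, ?_, ?_⟩
      · have e1 : (0 : Fin m → ℤ) = (⟨L, hLinj⟩ : (Fin m' → ℤ) ↪ (Fin m → ℤ)) 0 :=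
          (map_zero L).symm
        rw [e1, Finsupp.embDomain_apply_self]
        exact hh0
      · intro a ha
        rw [Finsupp.support_embDomain, Finset.mem_map] at ha
        obtain ⟨a', ha', rfl⟩ := ha
        exact hhs a' ha'
      · unfold ev
        rw [Finsupp.sum_embDomain]
        exact hhe
    have h3 := hmin _ h2
    rw [Finsupp.support_embDomain, Finset.card_map] at h3
    exact hScard.trans h3
  refine ⟨m', L, hmm, hLinj, ?_, ?_, ?_⟩
  · intro p _ χ hχ _ hrel
    -- sums with weights
    have hE : ∀ F : (Fin m' → ℤ) → K,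
        ∑ a ∈ S, algebraMap K Ω (F a * g' a) * y (L a) = 0 →
        ∑ a ∈ S, algebraMap K Ω (χ a * F a * g' a) * y (L a) = 0 := by
      intro F hF
      have hsup : ∀ a, F a * g' a ≠ 0 → a ∈ S := by
        intro a ha
        rw [hS, Finsupp.mem_support_iff]
        exact right_ne_zero_of_mul ha
      have h2 := hrel (Finsupp.onFinset S (fun a => F a * g' a) hsup) (by
        intro a ha
        exact hgs _ ((hmemS a).1 (Finsupp.support_onFinset_subset ha))) (by
        rw [ev_onFinset]
        exact hF)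
      rw [ev_onFinset] at h2
      rw [← h2]
      refine Finset.sum_congr rfl fun a _ => ?_
      rw [map_mul, map_mul, map_mul]
      ring
    have hpow : ∀ i : ℕ, ∑ a ∈ S, algebraMap K Ω (χ a ^ i * g' a) * y (L a) = 0 := by
      intro i
      induction i with
      | zero => simpa using hsumg
      | succ i ih =>
        have h2 := hE (fun a => χ a ^ i) ih
        refine (Finset.sum_congr rfl fun a _ => ?_).trans h2
        rw [pow_succ']
    have hpoly : ∀ P : K[X], ∑ a ∈ S, algebraMap K Ω (P.eval (χ a) * g' a) * y (L a) = 0 := by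
      intro P
      induction P using Polynomial.induction_on' with
      | add P Q hP hQ =>
        have h2 : ∑ a ∈ S, algebraMap K Ω ((P + Q).eval (χ a) * g' a) * y (L a) =
            ∑ a ∈ S, algebraMap K Ω (P.eval (χ a) * g' a) * y (L a) +
            ∑ a ∈ S, algebraMap K Ω (Q.eval (χ a) * g' a) * y (L a) := by
          rw [← Finset.sum_add_distrib]
          refine Finset.sum_congr rfl fun a _ => ?_
          rw [Polynomial.eval_add, add_mul, map_add, add_mul]
        rw [h2, hP, hQ, add_zero]
      | monomial n c =>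
        have h2 : ∑ a ∈ S, algebraMap K Ω ((Polynomial.monomial n c).eval (χ a) * g' a) * y (L a) =
            algebraMap K Ω c * ∑ a ∈ S, algebraMap K Ω (χ a ^ n * g' a) * y (L a) := by
          rw [Finset.mul_sum]
          refine Finset.sum_congr rfl fun a _ => ?_
          rw [Polynomial.eval_monomial, mul_assoc, map_mul, mul_assoc]
        rw [h2, hpow, mul_zero]
    -- the polynomial which selects the value one
    set V : Finset K := (S.image χ).erase 1 with hV
    set P : K[X] := ∏ z ∈ V, ((X - C z) * C (1 - z)⁻¹) with hP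
    have hP1 : P.eval 1 = 1 := by
      rw [hP, Polynomial.eval_prod]
      refine Finset.prod_eq_one fun z hz => ?_
      have hz1 : z ≠ 1 := Finset.ne_of_mem_erase hz
      rw [Polynomial.eval_mul, Polynomial.eval_sub, Polynomial.eval_X, Polynomial.eval_C,
        Polynomial.eval_C]
      exact mul_inv_cancel₀ (sub_ne_zero.2 hz1.symm)
    have hPz : ∀ a ∈ S, χ a ≠ 1 → P.eval (χ a) = 0 := by
      intro a ha h2
      rw [hP, Polynomial.eval_prod]
      refine Finset.prod_eq_zero (i := χ a) (Finset.mem_erase.2 ⟨h2, Finset.mem_image_of_mem _ ha⟩) ?_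
      rw [Polynomial.eval_mul, Polynomial.eval_sub, Polynomial.eval_X, Polynomial.eval_C, sub_self,
        zero_mul]
    have hsup : ∀ a, P.eval (χ a) * g' a ≠ 0 → a ∈ S := by
      intro a ha
      rw [hS, Finsupp.mem_support_iff]
      exact right_ne_zero_of_mul ha
    have hcard := hmin' (Finsupp.onFinset S (fun a => P.eval (χ a) * g' a) hsup) (by
      rw [Finsupp.onFinset_apply, hχ.zero, hP1, one_mul, hg'a, map_zero]
      exact hg0) (by
      intro a ha
      exact hgs _ ((hmemS a).1 (Finsupp.support_onFinset_subset ha))) (by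
      rw [ev_onFinset]
      exact hpoly P)
    have heq := Finset.eq_of_subset_of_card_le Finsupp.support_onFinset_subset hcard
    have hS1 : ∀ a ∈ S, χ a = 1 := by
      intro a ha
      by_contra h2
      have h3 := ha
      rw [← heq, Finsupp.mem_support_iff, Finsupp.onFinset_apply, hPz a ha h2, zero_mul] at h3
      exact h3 rfl
    -- the subgroup on which the character is trivial
    set H : AddSubgroup (Fin m' → ℤ) :=
      { carrier := {a | χ a = 1}
        add_mem' := by
          intro a b ha hb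
          show χ (a + b) = 1
          rw [hχ.add, show χ a = 1 from ha, show χ b = 1 from hb, one_mul]
        zero_mem' := hχ.zero
        neg_mem' := by
          intro a ha
          show χ (-a) = 1
          have h2 : χ (a + -a) = 1 := by rw [add_neg_cancel]; exact hχ.zero
          rw [hχ.add, show χ a = 1 from ha, one_mul] at h2
          exact h2 } with hH
    have hle : Λ ≤ H.map L := by
      rw [hΛ, AddSubgroup.closure_le]
      intro v hv
      obtain ⟨a, rfl⟩ := hLran v (hsupΛ v hv)
      exact ⟨a, hS1 a ((hmemS a).2 hv), rfl⟩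
    intro a
    obtain ⟨a', ha', h2⟩ := hle (hLin a)
    rw [hLinj h2] at ha'
    exact ha'
  · -- the small vectors generate
    have hle : Λ ≤ (AddSubgroup.closure {a : Fin m' → ℤ | N (L a) ≤ 2 * σ}).map L := by
      rw [hΛ, AddSubgroup.closure_le]
      intro v hv
      obtain ⟨a, rfl⟩ := hLran v (hsupΛ v hv)
      exact ⟨a, AddSubgroup.subset_closure (hgs _ hv), rfl⟩
    rw [eq_top_iff]
    intro a _
    obtain ⟨a', ha', h2⟩ := hle (hLin a)
    rw [hLinj h2] at ha'
    exact ha'
  · -- a nonzero element of the support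
    have h2 : ∃ a1 ∈ g.support, a1 ≠ 0 := by
      by_contra hc
      push Not at hc
      have h3 : ev K y g = algebraMap K Ω (g 0) * y 0 := by
        rw [ev_support]
        refine Finset.sum_eq_single_of_mem 0 (Finsupp.mem_support_iff.2 hg0) fun a ha ha0 => ?_
        exact absurd (hc a ha) ha0
      rw [hge, hy.zero, mul_one] at h3
      exact hg0 ((algebraMap K Ω).injective (by rw [← h3, map_zero]))
    obtain ⟨a1, ha1, ha10⟩ := h2
    obtain ⟨a, rfl⟩ := hLran a1 (hsupΛ a1 ha1)
    refine ⟨a, ?_, hgs _ ha1⟩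
    rintro rfl
    exact ha10 (map_zero L)

end Pool.Agent.H1.LG
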