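import Pool.Agent.H29.LG.Targets

set_option autoImplicit false

/-!
# MP_c65535_nt, board lgx_modules: row SFTM
-/

namespace Pool.Agent.H1.LG.SFTM

open NumberField Height Finset Polynomial Pool.Agent.H24.RD Pool.Agent.H23.RDD Pool.Agent.H29.RQ
  Pool.Agent.H29.SX Pool.Agent.H29.LG

section

variable {K Ω : Type} [Field K] [Field Ω] [Algebra K Ω]

theorem isPt_twist {A : Type} [AddCommGroup A] {y z : A → Ω} (θ : Ω ≃+* Ω) (q : ℕ)
    (hy : IsPt y) (h : ∀ a, z a = θ (y a ^ q)) : IsPt z := by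
  refine ⟨?_, fun a b => ?_⟩
  · rw [h, hy.zero, one_pow, map_one]
  · rw [h, h, h, hy.add, mul_pow, map_mul]

theorem isPt_comp {A B : Type} [AddCommGroup A] [AddCommGroup B] {y : A → Ω} (hy : IsPt y)
    (L : B →+ A) : IsPt (fun b => y (L b)) := by
  refine ⟨?_, fun a b => ?_⟩
  · change y (L 0) = 1
    rw [map_zero, hy.zero]
  · change y (L (a + b)) = y (L a) * y (L b)
    rw [map_add, hy.add]

theorem isNm_comp {A B : Type} [AddCommGroup A] [AddCommGroup B] {N : A → ℝ} (hN : IsNm N)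
    (L : B →+ A) (hL : Function.Injective L) : IsNm (fun b => N (L b)) := by
  refine ⟨fun a => ?_, fun a b => ?_, fun q a => ?_, fun ρ => ?_⟩
  · rw [map_neg, hN.neg]
  · rw [map_add]
    exact hN.add _ _
  · rw [map_nsmul, hN.nsm]
  · exact (hN.fin ρ).preimage hL.injOn

theorem WW_mono {A : Type} [AddCommGroup A] {N : A → ℝ} (hN : IsNm N) (y : A → Ω) {ρ ρ' : ℝ}
    (h : ρ ≤ ρ') : Module.finrank K (WW K y N ρ) ≤ Module.finrank K (WW K y N ρ') := by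
  have hf : (y '' {a | N a ≤ ρ'}).Finite := (hN.fin ρ').image y
  have : FiniteDimensional K (WW K y N ρ') := FiniteDimensional.span_of_finite K hf
  apply Submodule.finrank_mono
  apply Submodule.span_mono
  apply Set.image_mono
  intro a ha
  exact le_trans ha h

end

theorem pf_SFTM (h1 : T_CHOA) (h2 : T_GROF) (h3 : T_TWI) (h4 : T_NINF) (h5 : T_COL) :
    T_SFTM := by
  intro K Ω _ _ _ _ m s t ht pr ex Q ζ θ κ hpr hlt hex0 hq8 hθ hθ0 y hy N hN σ ρ hσ hρ hg hnc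
  obtain ⟨g, hg0, hgS, hgE⟩ := hg
  obtain ⟨m', L, hm', hL, hst, hcl, a0, ha0, hNa0⟩ := h1 K Ω m y N σ hy hN g hg0 hgS hgE
  have hyL : IsPt (fun a => y (L a)) := isPt_comp hy L
  have hNL := isNm_comp hN L hL
  have hm'1 : 1 ≤ m' := by
    rcases Nat.eq_zero_or_pos m' with h | h
    · subst h
      exact absurd (Subsingleton.elim a0 0) ha0
    · exact h
  have hm1 : 1 ≤ m := hm'1.trans hm'
  -- numbers
  have hQ1 : (1 : ℝ) ≤ Q := by
    have h := (hpr 0 (Nat.zero_le _)).2.2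
    rw [hex0, pow_zero] at h
    exact h
  have hQm1 : (1 : ℝ) ≤ Q ^ m := one_le_pow₀ hQ1
  have hQQ : Q ≤ Q ^ m := le_self_pow₀ hQ1 (by omega)
  have htR : (1 : ℝ) ≤ t := by exact_mod_cast ht
  have hsR : (0 : ℝ) ≤ s := Nat.cast_nonneg s
  have hts : (1 : ℝ) ≤ t + s := by linarith
  have hmR : (0 : ℝ) ≤ m := Nat.cast_nonneg m
  set B : ℝ := (m + 1) * Q ^ m * σ with hB
  have hB0 : 0 ≤ B := by positivity
  have hσB : σ ≤ B := by
    rw [hB]
    apply le_mul_of_one_le_left hσ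
    nlinarith
  have hρ' : 64 * ((t + s) * B) ≤ ρ := by
    calc 64 * ((t + s) * B) = 64 * (t + s) * (m + 1) * Q ^ m * σ := by rw [hB]; ring
      _ ≤ ρ := hρ
  have hρ1 : 64 * B ≤ ρ := by
    have : B ≤ (t + s) * B := le_mul_of_one_le_left hB0 hts
    linarith
  have hρ0 : 0 ≤ ρ := by linarith
  have hρ2 : 32 * B ≤ ρ / (2 * (t + s)) := by
    rw [le_div_iff₀ (by linarith)]
    calc 32 * B * (2 * (t + s)) = 64 * ((t + s) * B) := by ring
      _ ≤ ρ := hρ'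
  -- the main inequality
  have hmain : ∀ c, c ≤ s →
      (m' * (pr c : ℝ) ^ ex c + ((pr c : ℝ) ^ ex c) ^ m') * σ ≤ B := by
    intro c hc
    have hp0 : (0 : ℝ) ≤ (pr c : ℝ) ^ ex c := by positivity
    have hpQ : (pr c : ℝ) ^ ex c ≤ Q := (hpr c hc).2.2
    have e1 : (m' : ℝ) * (pr c : ℝ) ^ ex c ≤ m * Q ^ m := by
      apply mul_le_mul
      · exact_mod_cast hm'
      · exact hpQ.trans hQQ
      · exact hp0
      · exact hmR
    have e2 : ((pr c : ℝ) ^ ex c) ^ m' ≤ Q ^ m :=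
      (pow_le_pow_left₀ hp0 hpQ m').trans (pow_le_pow_right₀ hQ1 hm')
    calc (m' * (pr c : ℝ) ^ ex c + ((pr c : ℝ) ^ ex c) ^ m') * σ
        ≤ (m * Q ^ m + Q ^ m) * σ := mul_le_mul_of_nonneg_right (by linarith) hσ
      _ = B := by rw [hB]; ring
  have hpt : ∀ c, IsPt (fun a => θ c (y a ^ (pr c ^ ex c))) := fun c =>
    isPt_twist (θ c) (pr c ^ ex c) hy fun a => rfl
  refine h5 K Ω m' m L hL N hN (fun c a => θ c (y a ^ (pr c ^ ex c))) hpt s t ht ρ hρ0 ?_ ?_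
  · intro c₁ c₂ hc hcs
    by_contra hno
    push Not at hno
    have h9 : 8 * ((m' * (pr c₂ : ℝ) ^ ex c₂ + ((pr c₂ : ℝ) ^ ex c₂) ^ m') * (2 * σ)) ≤
        ρ / (2 * (t + s)) := by
      have := hmain c₂ hcs
      have e : 8 * ((m' * (pr c₂ : ℝ) ^ ex c₂ + ((pr c₂ : ℝ) ^ ex c₂) ^ m') * (2 * σ)) =
          16 * ((m' * (pr c₂ : ℝ) ^ ex c₂ + ((pr c₂ : ℝ) ^ ex c₂) ^ m') * σ) := by ring
      rw [e]
      linarith
    have h10 := h4 K Ω (pr c₁) (pr c₂) (ex c₁) (ex c₂) (hpr c₁ (by omega)).1 (hpr c₂ hcs).1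
      (hlt c₁ c₂ hc hcs) (ζ c₁) (ζ c₂) (hpr c₁ (by omega)).2.1 (hpr c₂ hcs).2.1 (θ c₁) (θ c₂)
      (κ c₁) (κ c₂) (hθ c₁) (hθ c₂) m' (fun a => y (L a)) (fun a => N (L a)) (2 * σ)
      (ρ / (2 * (t + s))) hyL hNL (by linarith) hcl (hst _ (hpr c₁ (by omega)).1)
      (hst _ (hpr c₂ hcs).1) h9 (fun f hf1 hf2 => hno f hf1 hf2) a0
      (by
        have : N (L a0) ≤ 2 * σ := hNa0
        show N (L a0) ≤ _
        linarith)
    refine hnc c₁ c₂ (L a0) hc hcs ?_ h10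
    intro h0
    exact ha0 (hL (by rw [h0, map_zero]))
  · intro c hc1 hcs
    have h7 := h2 K Ω (pr c) (ex c) (hpr c hcs).1 (ζ c) (hpr c hcs).2.1 m' (fun a => y (L a))
      (fun a => N (L a)) hyL hNL (2 * σ) (ρ / 2 - m' * (2 * σ)) (by linarith) hcl
      (hst _ (hpr c hcs).1)
    have h8 := (h3 K Ω (θ c) (κ c) (hθ c) (pr c) m' (fun a => y (L a) ^ (pr c ^ ex c))
      (fun a => N (L a))).2 (ρ / 2)
    have e0 : (fun a => θ 0 (y (L a) ^ (pr 0 ^ ex 0))) = fun a => y (L a) := by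
      funext a
      rw [hex0, pow_zero, pow_one, hθ0]
    have e1 : ρ / 2 - m' * (2 * σ) + m' * (2 * σ) = ρ / 2 := by ring
    rw [e1] at h7
    show Module.finrank K (WW K (fun a => θ 0 (y (L a) ^ (pr 0 ^ ex 0))) (fun a => N (L a)) ρ) ≤
      Module.finrank K (WW K (fun a => θ c (y (L a) ^ (pr c ^ ex c))) (fun a => N (L a)) (ρ / 2))
    rw [e0, h8]
    refine le_trans (WW_mono hNL _ ?_) h7
    have h11 : (8 : ℝ) ≤ (pr c : ℝ) ^ ex c := by exact_mod_cast hq8 c hc1 hcs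
    have h12 : 8 * (ρ / 2) ≤ (pr c : ℝ) ^ ex c * (ρ / 2) :=
      mul_le_mul_of_nonneg_right h11 (by linarith)
    have h13 := hmain c hcs
    have e2 : (pr c : ℝ) ^ ex c * (ρ / 2 - m' * (2 * σ)) - ((pr c : ℝ) ^ ex c) ^ m' * (2 * σ) =
        (pr c : ℝ) ^ ex c * (ρ / 2) -
          2 * ((m' * (pr c : ℝ) ^ ex c + ((pr c : ℝ) ^ ex c) ^ m') * σ) := by ring
    rw [e2]
    linarith

end Pool.Agent.H1.LG.SFTM
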